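import Pool.Agent.helper62.DP7.Spec

set_option autoImplicit false

namespace Pool.Agent.helper62.DP7

open Finset

theorem CO4_mono {V W : Type} {G : SimpleGraph V} {R : W → W → Prop} {L : V → Finset W}
    {A B B' : Finset V} (h : B' ⊆ B) (hc : Col G R L A B) : Col G R L A B' := by
  obtain ⟨f, h1, h2⟩ := hc
  exact ⟨f, fun v hv => h1 v (h hv), fun u hu v hv => h2 u (h hu) v (h hv)⟩

theorem CO4 (hUNC : UNC_stmt) (hGRD : GRD_stmt) (hOUT : OUT_stmt) : CO4_stmt := by
  intro V W _ G R L hC h6 A x u v hR hx hu hnx hv hcol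
  have hd3 : ∀ y ∈ A, (nb G A y).card ≤ 3 := hR.le3
  have huA : ∀ i, u i ∈ nb G A x := by
    intro i; rw [hnx]; fin_cases i <;> simp
  have hxu : ∀ i, G.Adj x (u i) := fun i => (mem_nb.mp (huA i)).2
  have huA' : ∀ i, u i ∈ A := fun i => (mem_nb.mp (huA i)).1
  have hvA : ∀ i, v i ∈ A := fun i => (mem_nb.mp (hv i).1).1
  have huv : ∀ i, G.Adj (u i) (v i) := fun i => (mem_nb.mp (hv i).1).2
  have hv2 : ∀ i, (nb G A (v i)).card = 2 := fun i => (hv i).2
  have huv' : ∀ i, u i ∈ nb G A (v i) := fun i => mem_nb.mpr ⟨huA' i, (huv i).symm⟩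
  have hw : ∀ i, ∃ w, nb G A (v i) = {u i, w} ∧ w ≠ u i := by
    intro i
    obtain ⟨a, b, hab, he⟩ := card_eq_two.mp (hv2 i)
    have := huv' i
    rw [he, mem_insert, mem_singleton] at this
    rcases this with h | h
    · exact ⟨b, by rw [he, h], by rw [h]; exact hab.symm⟩
    · exact ⟨a, by rw [he, h, pair_comm], by rw [h]; exact hab⟩
  choose w hw1 hw2 using hw
  have hwm : ∀ i, w i ∈ nb G A (v i) := fun i => by rw [hw1 i]; simp
  have hwA : ∀ i, w i ∈ A := fun i => (mem_nb.mp (hwm i)).1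
  have hvw : ∀ i, G.Adj (v i) (w i) := fun i => (mem_nb.mp (hwm i)).2
  have hu3 : ∀ i, (nb G A (u i)).card = 3 := fun i => hR.sep (v i) (hvA i) (hv2 i) (u i) (huv' i)
  have hw3 : ∀ i, (nb G A (w i)).card = 3 := fun i => hR.sep (v i) (hvA i) (hv2 i) (w i) (hwm i)
  have hx3 : (nb G A x).card = 3 := by
    have e : nb G A x = univ.image u := by
      rw [hnx]
      ext y
      simp only [mem_insert, mem_singleton, mem_image, mem_univ, true_and]
      constructor
      · rintro (h | h | h)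
        · exact ⟨0, h.symm⟩
        · exact ⟨1, h.symm⟩
        · exact ⟨2, h.symm⟩
      · rintro ⟨i, h⟩
        subst h
        fin_cases i <;> simp
    rw [e, card_image_of_injective _ hu]
    simp
  have hvne3 : ∀ i z, (nb G A z).card = 3 → v i ≠ z := by
    intro i z hz h
    have := hv2 i
    rw [h, hz] at this
    omega
  have hvi : Function.Injective v := by
    intro i j hij
    have hxv : x ≠ v i := (hvne3 i x hx3).symm
    exact hu (h6.c4 x (u i) (v i) (u j) (hxu i) (huv i) (hxu j) (hij ▸ huv j) hxv)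
  have hwx : ∀ i, w i ≠ x := by
    intro i h
    exact h6.c3 x (u i) (v i) (hxu i) (huv i) (h ▸ hvw i)
  have hwu : ∀ i j, w i ≠ u j := by
    intro i j h
    have e : v i = v j := hR.one (u j) (huA' j) (v i) (mem_nb.mpr ⟨hvA i, h ▸ (hvw i).symm⟩)
      (v j) (hv j).1 (hv2 i) (hv2 j)
    have e2 : i = j := hvi e
    subst e2
    exact hw2 i h
  have hxune : ∀ i, x ≠ u i := fun i => (hxu i).ne
  -- the invariants
  have s1 : ∀ (i : Fin 3) (B : Finset V), (B ⊆ A ∧ (∀ j, u j ∉ B) ∧ (∀ j, v j ∉ B) ∧ x ∉ B ∧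
      Col G R L A B) → (insert (w i) B ⊆ A ∧ (∀ j, u j ∉ insert (w i) B) ∧
      (∀ j, v j ∉ insert (w i) B) ∧ x ∉ insert (w i) B ∧ Col G R L A (insert (w i) B)) := by
    rintro i B ⟨hB, hBu, hBv, hBx, hcB⟩
    refine ⟨insert_subset (hwA i) hB, ?_, ?_, ?_, ?_⟩
    · intro j hj
      rw [mem_insert] at hj
      rcases hj with hj | hj
      · exact hwu i j hj.symm
      · exact hBu j hj
    · intro j hj
      rw [mem_insert] at hj
      rcases hj with hj | hj
      · exact hvne3 j _ (hw3 i) hj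
      · exact hBv j hj
    · intro hj
      rw [mem_insert] at hj
      rcases hj with hj | hj
      · exact hwx i hj.symm
      · exact hBx hj
    · have hO := (hOUT V G A B {u i, v i} (w i) (hwA i) hB (by
        intro y hy
        rw [mem_insert, mem_singleton] at hy
        rcases hy with rfl | rfl
        exacts [huA' i, hvA i]) (by
        rw [disjoint_left]
        intro y hy
        rw [mem_insert, mem_singleton] at hy
        rcases hy with rfl | rfl
        exacts [hBu i, hBv i]) (by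
        intro y hy
        rw [mem_insert, mem_singleton] at hy
        rcases hy with rfl | rfl
        · exact ⟨hw2 i, Or.inr ⟨v i, hvA i, (hvw i).symm, (huv i).symm⟩⟩
        · exact ⟨(hvw i).ne.symm, Or.inl (hvw i).symm⟩)).2.2.1 hd3
        ⟨v i, mem_nb.mpr ⟨hvA i, (hvw i).symm⟩, (hv2 i).le⟩
      rw [card_pair (huv i).ne, hw3 i] at hO
      exact hGRD V W G R L hC A B (w i) hcB (by omega)
  have s2 : ∀ (i : Fin 3) (B : Finset V), (B ⊆ A ∧ (∀ j, v j ∉ B) ∧ x ∉ B ∧
      Col G R L A B) → (insert (u i) B ⊆ A ∧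
      (∀ j, v j ∉ insert (u i) B) ∧ x ∉ insert (u i) B ∧ Col G R L A (insert (u i) B)) := by
    rintro i B ⟨hB, hBv, hBx, hcB⟩
    refine ⟨insert_subset (huA' i) hB, ?_, ?_, ?_⟩
    · intro j hj
      rw [mem_insert] at hj
      rcases hj with hj | hj
      · exact hvne3 j _ (hu3 i) hj
      · exact hBv j hj
    · intro hj
      rw [mem_insert] at hj
      rcases hj with hj | hj
      · exact hxune i hj
      · exact hBx hj
    · have hO := (hOUT V G A B {x, v i} (u i) (huA' i) hB (by
        intro y hy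
        rw [mem_insert, mem_singleton] at hy
        rcases hy with rfl | rfl
        exacts [hx, hvA i]) (by
        rw [disjoint_left]
        intro y hy
        rw [mem_insert, mem_singleton] at hy
        rcases hy with rfl | rfl
        exacts [hBx, hBv i]) (by
        intro y hy
        rw [mem_insert, mem_singleton] at hy
        rcases hy with rfl | rfl
        · exact ⟨(hxune i).symm, Or.inl (hxu i).symm⟩
        · exact ⟨(huv i).ne, Or.inl (huv i)⟩)).2.2.1 hd3
        ⟨v i, (hv i).1, (hv2 i).le⟩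
      rw [card_pair (hvne3 i x hx3).symm, hu3 i] at hO
      exact hGRD V W G R L hC A B (u i) hcB (by omega)
  have s3 : ∀ (B : Finset V), (B ⊆ A ∧ (∀ j, v j ∉ B) ∧ x ∉ B ∧
      Col G R L A B) → (insert x B ⊆ A ∧ Col G R L A (insert x B)) := by
    rintro B ⟨hB, hBv, hBx, hcB⟩
    refine ⟨insert_subset hx hB, ?_⟩
    have hO := (hOUT V G A B (univ.image v) x hx hB (by
        intro y hy
        obtain ⟨i, -, rfl⟩ := mem_image.mp hy
        exact hvA i) (by
        rw [disjoint_left]
        intro y hy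
        obtain ⟨i, -, rfl⟩ := mem_image.mp hy
        exact hBv i) (by
        intro y hy
        obtain ⟨i, -, rfl⟩ := mem_image.mp hy
        exact ⟨(hvne3 i x hx3).symm, Or.inr ⟨u i, huA' i, hxu i, huv i⟩⟩)).2.1 hd3
    rw [card_image_of_injective _ hvi, hx3, card_univ, Fintype.card_fin] at hO
    exact hGRD V W G R L hC A B x hcB (by omega)
  have s4 : ∀ (i : Fin 3) (B : Finset V), (B ⊆ A ∧ Col G R L A B) →
      (insert (v i) B ⊆ A ∧ Col G R L A (insert (v i) B)) := by
    rintro i B ⟨hB, hcB⟩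
    refine ⟨insert_subset (hvA i) hB, ?_⟩
    have hO := (hOUT V G A B ∅ (v i) (hvA i) hB (empty_subset _) (disjoint_empty_left _)
      (by intro y hy; exact absurd hy (notMem_empty _))).2.1 hd3
    rw [hv2 i, card_empty] at hO
    exact hGRD V W G R L hC A B (v i) hcB (by omega)
  -- the start
  obtain ⟨S', hS'⟩ : ∃ S' : Finset V, S' = insert x (univ.image v ∪ univ.image u ∪ univ.image w) :=
    ⟨_, rfl⟩
  have memS : ∀ y, y ∈ S' ↔ y = x ∨ (∃ i, v i = y) ∨ (∃ i, u i = y) ∨ (∃ i, w i = y) := by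
    intro y
    rw [hS']
    simp only [mem_insert, mem_union, mem_image, mem_univ, true_and, or_assoc]
  have hB0 := hUNC V W G R L A {x, v 0, v 1, v 2} S' (by
      intro y hy
      rw [memS]
      simp only [mem_insert, mem_singleton] at hy
      rcases hy with h | h | h | h
      · exact Or.inl h
      · exact Or.inr (Or.inl ⟨0, h.symm⟩)
      · exact Or.inr (Or.inl ⟨1, h.symm⟩)
      · exact Or.inr (Or.inl ⟨2, h.symm⟩)) (by
      have hvS : ∀ i, nb G A (v i) ⊆ S' := by
        intro i y hy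
        rw [hw1 i, mem_insert, mem_singleton] at hy
        rw [memS]
        rcases hy with h | h
        · exact Or.inr (Or.inr (Or.inl ⟨i, h.symm⟩))
        · exact Or.inr (Or.inr (Or.inr ⟨i, h.symm⟩))
      intro s hs
      simp only [mem_insert, mem_singleton] at hs
      rcases hs with rfl | rfl | rfl | rfl
      · intro y hy
        rw [hnx] at hy
        simp only [mem_insert, mem_singleton] at hy
        rw [memS]
        rcases hy with h | h | h
        · exact Or.inr (Or.inr (Or.inl ⟨0, h.symm⟩))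
        · exact Or.inr (Or.inr (Or.inl ⟨1, h.symm⟩))
        · exact Or.inr (Or.inr (Or.inl ⟨2, h.symm⟩))
      · exact hvS 0
      · exact hvS 1
      · exact hvS 2) hcol
  have h0 : (A \ S' ⊆ A ∧ (∀ j, u j ∉ A \ S') ∧ (∀ j, v j ∉ A \ S') ∧ x ∉ A \ S' ∧
      Col G R L A (A \ S')) := by
    refine ⟨sdiff_subset, ?_, ?_, ?_, hB0⟩
    · intro j hj
      exact (mem_sdiff.mp hj).2 ((memS _).mpr (Or.inr (Or.inr (Or.inl ⟨j, rfl⟩))))
    · intro j hj
      exact (mem_sdiff.mp hj).2 ((memS _).mpr (Or.inr (Or.inl ⟨j, rfl⟩)))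
    · intro hj
      exact (mem_sdiff.mp hj).2 ((memS _).mpr (Or.inl rfl))
  have h1 := s1 2 _ (s1 1 _ (s1 0 _ h0))
  have h2 := s2 2 _ (s2 1 _ (s2 0 _ ⟨h1.1, h1.2.2.1, h1.2.2.2.1, h1.2.2.2.2⟩))
  have h3 := s3 _ h2
  have h4 := s4 2 _ (s4 1 _ (s4 0 _ h3))
  refine CO4_mono ?_ h4.2
  intro y hy
  by_cases hyS : y ∈ S'
  · rw [memS] at hyS
    rcases hyS with h | ⟨i, h⟩ | ⟨i, h⟩ | ⟨i, h⟩
    · simp [h]
    · subst h; fin_cases i <;> simp
    · subst h; fin_cases i <;> simp
    · subst h; fin_cases i <;> simp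
  · simp only [mem_insert, mem_sdiff]
    tauto

end Pool.Agent.helper62.DP7
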